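import Pool.Agent.W662.CB.Stmts

set_option autoImplicit false

open Filter Topology Complex
open scoped InnerProductSpace

namespace Pool.Agent.W584.CB

open Pool.Agent.W662.CB

theorem a7 (h5 : S_A5) : S_A7 := by
  intro H _ _ _ M N ξ hξ hle x hx L ε hL hε
  obtain ⟨hxM, hx2⟩ := hx
  have hnn : ∀ a : H →L[ℂ] H, 0 ≤ commNorm M ξ a := (h5 H M ξ hξ).1
  have hd : ∃ d : ℝ, 0 < d ∧ ∀ a : H →L[ℂ] H, a ∈ N → ‖a‖ ≤ L → commNorm M ξ a < d →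
      ‖(a * x - x * a) ξ‖ ^ 2 < ε := by
    by_contra hcon
    push Not at hcon
    have h1 : ∀ n : ℕ, ∃ a : H →L[ℂ] H, a ∈ N ∧ ‖a‖ ≤ L ∧ commNorm M ξ a < 1 / ((n : ℝ) + 1) ∧
        ε ≤ ‖(a * x - x * a) ξ‖ ^ 2 := fun n => hcon _ (by positivity)
    choose a ha1 ha2 ha3 ha4 using h1
    have h2 : Tendsto (fun n => commNorm M ξ (a n)) atTop (𝓝 0) :=
      squeeze_zero (fun n => hnn (a n)) (fun n => (ha3 n).le)
        tendsto_one_div_add_atTop_nhds_zero_nat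
    have h3 := (hx2 a ha1 ⟨L, ha2⟩ h2 ξ).1
    have h4 : Tendsto (fun n => ‖(a n * x - x * a n) ξ‖ ^ 2) atTop (𝓝 0) := by
      have := (h3.norm).pow 2
      simpa using this
    have h6 := ge_of_tendsto' h4 ha4
    linarith
  obtain ⟨d, hd0, hd1⟩ := hd
  refine ⟨(2 * L * ‖x‖) ^ 2 / d ^ 2, by positivity, ?_⟩
  intro a haN haL
  by_cases hc : commNorm M ξ a < d
  · have h1 := hd1 a haN haL hc
    have h2 : 0 ≤ (2 * L * ‖x‖) ^ 2 / d ^ 2 * commNorm M ξ a ^ 2 := by positivity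
    linarith
  · push Not at hc
    have h1 : ‖(a * x - x * a) ξ‖ ≤ 2 * L * ‖x‖ := by
      have e1 : ‖(a * x - x * a) ξ‖ ≤ ‖a * x - x * a‖ * ‖ξ‖ := (a * x - x * a).le_opNorm ξ
      have e2 : ‖a * x - x * a‖ ≤ ‖a * x‖ + ‖x * a‖ := norm_sub_le _ _
      have e3 : ‖a * x‖ ≤ ‖a‖ * ‖x‖ := norm_mul_le _ _
      have e4 : ‖x * a‖ ≤ ‖x‖ * ‖a‖ := norm_mul_le _ _
      rw [hξ, mul_one] at e1
      have e5 : ‖a‖ * ‖x‖ ≤ L * ‖x‖ := mul_le_mul_of_nonneg_right haL (norm_nonneg _)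
      nlinarith
    have h2 : ‖(a * x - x * a) ξ‖ ^ 2 ≤ (2 * L * ‖x‖) ^ 2 :=
      pow_le_pow_left₀ (norm_nonneg _) h1 2
    have h3 : (2 * L * ‖x‖) ^ 2 ≤ (2 * L * ‖x‖) ^ 2 / d ^ 2 * commNorm M ξ a ^ 2 := by
      rw [div_mul_eq_mul_div, le_div_iff₀ (by positivity)]
      exact mul_le_mul_of_nonneg_left (pow_le_pow_left₀ hd0.le hc 2) (by positivity)
    linarith

end Pool.Agent.W584.CB
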